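import Mathlib
import Pool.Agent.Q137.HullRatio.Main

set_option autoImplicit false

/-!
# Extremal ratio of hull areas of `k`-point subsets: the two-line set is not extremal

For every `k ≥ 4` and every `n ≥ k` such that `k - 2` does not divide `n - 2`, the set `S_n` does
not attain the infimum `f(k, n)`: in fact `f(k, n) ≤ ⌊(n - 2) / (k - 2)⌋`, while
`T_k(S_n) / t_k(S_n) ≥ (n - 2) / (k - 2)`.
-/

namespace Pool.Agent.Results.MP_ee40c7_co.ClusteredLine

open MeasureTheory Set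

/-- The area (Lebesgue measure in the plane) of the convex hull of a finite set of points. -/
noncomputable def hullArea (A : Finset (ℝ × ℝ)) : ℝ :=
  (volume (convexHull ℝ (A : Set (ℝ × ℝ)))).toReal

/-- `T_k(S)`: the largest area of the convex hull of a `k`-element subset of `S`. -/
noncomputable def bigT (k : ℕ) (S : Finset (ℝ × ℝ)) : ℝ :=
  sSup {a : ℝ | ∃ A ∈ S.powersetCard k, a = hullArea A}

/-- `t_k(S)`: the smallest positive area of the convex hull of a `k`-element subset of `S`. -/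
noncomputable def smallT (k : ℕ) (S : Finset (ℝ × ℝ)) : ℝ :=
  sInf {a : ℝ | 0 < a ∧ ∃ A ∈ S.powersetCard k, a = hullArea A}

/-- `f(k, n)`: the infimum of `T_k(S) / t_k(S)` over all sets `S` of `n` points of the plane that
are not all on one line. -/
noncomputable def f (k n : ℕ) : ℝ :=
  sInf {r : ℝ | ∃ S : Finset (ℝ × ℝ), S.card = n ∧ ¬ Collinear ℝ (S : Set (ℝ × ℝ)) ∧
    r = bigT k S / smallT k S}

/-- The set `S_n`: the points `(0, j)`, `0 ≤ j ≤ ⌊(n-1)/2⌋`, and `(1, j)`, `0 ≤ j ≤ ⌊(n-2)/2⌋`. -/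
noncomputable def twoLines (n : ℕ) : Finset (ℝ × ℝ) :=
  (Finset.range ((n - 1) / 2 + 1)).image (fun j : ℕ => ((0:ℝ), (j:ℝ))) ∪
    (Finset.range ((n - 2) / 2 + 1)).image (fun j : ℕ => ((1:ℝ), (j:ℝ)))

/-- **Theorem.** Let `k ≥ 4`. For every `n ≥ k` we have `f(k, n) ≤ ⌊(n - 2) / (k - 2)⌋` and
`(n - 2) / (k - 2) ≤ T_k(S_n) / t_k(S_n)`. Consequently, for every `n ≥ k` for which `k - 2` does
not divide `n - 2`, some set `S` of `n` points, not all on one line, satisfies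
`T_k(S) / t_k(S) < T_k(S_n) / t_k(S_n)`, and `f(k, n) < T_k(S_n) / t_k(S_n)`; and there is no `N`
such that `f(k, n) = T_k(S_n) / t_k(S_n)` for all `n ≥ N`. -/
theorem result (k : ℕ) (hk : 4 ≤ k) :
    (∀ n : ℕ, k ≤ n → f k n ≤ (((n - 2) / (k - 2) : ℕ) : ℝ) ∧
      ((n : ℝ) - 2) / ((k : ℝ) - 2) ≤ bigT k (twoLines n) / smallT k (twoLines n)) ∧
    (∀ n : ℕ, k ≤ n → ¬ (k - 2) ∣ (n - 2) →
      (∃ S : Finset (ℝ × ℝ), S.card = n ∧ ¬ Collinear ℝ (S : Set (ℝ × ℝ)) ∧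
        bigT k S / smallT k S < bigT k (twoLines n) / smallT k (twoLines n)) ∧
      f k n < bigT k (twoLines n) / smallT k (twoLines n)) ∧
    ¬ ∃ N : ℕ, ∀ n : ℕ, N ≤ n → f k n = bigT k (twoLines n) / smallT k (twoLines n) := by
  have key : ∀ n : ℕ, k ≤ n → ∀ ε : ℝ, 0 < ε →
      f k n ≤ (((n - 2) / (k - 2) : ℕ) : ℝ) + ε * n ∧
      ∃ S : Finset (ℝ × ℝ), S.card = n ∧ ¬ Collinear ℝ (S : Set (ℝ × ℝ)) ∧
        bigT k S / smallT k S ≤ (((n - 2) / (k - 2) : ℕ) : ℝ) + ε * n := by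
    intro n hn ε hε
    have h1 := Q137.HullRatio.ratio_cluster hk hn hε
    have h2 := Q137.HullRatio.cluster_card (k := k) (n := n) (by omega) hε
    have h3 := Q137.HullRatio.cluster_not_collinear (k := k) (n := n) (by omega) hε
    refine ⟨le_trans (csInf_le ⟨0, ?_⟩ ⟨_, h2, h3, rfl⟩) h1, _, h2, h3, h1⟩
    rintro r ⟨S, -, -, rfl⟩
    exact div_nonneg (Q137.HullRatio.bigT_nonneg k S) (Q137.HullRatio.smallT_nonneg k S)
  have hratio : ∀ n : ℕ, k ≤ n →
      ((n : ℝ) - 2) / ((k : ℝ) - 2) ≤ bigT k (twoLines n) / smallT k (twoLines n) :=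
    fun n hn => Q137.HullRatio.ratio_twoLines hk hn
  have hk' : (4:ℝ) ≤ k := by exact_mod_cast hk
  have hstrict : ∀ n : ℕ, k ≤ n → ¬ (k - 2) ∣ (n - 2) →
      (((n - 2) / (k - 2) : ℕ) : ℝ) < ((n : ℝ) - 2) / ((k : ℝ) - 2) := by
    intro n hn hdvd
    rw [lt_div_iff₀ (by linarith)]
    have h1 : (n - 2) / (k - 2) * (k - 2) < n - 2 := by
      have h2 := Nat.div_add_mod (n - 2) (k - 2)
      have h3 : 0 < (n - 2) % (k - 2) := by
        rw [Nat.pos_iff_ne_zero]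
        exact fun h => hdvd (Nat.dvd_of_mod_eq_zero h)
      rw [mul_comm]
      omega
    have h4 : ((((n - 2) / (k - 2) * (k - 2) : ℕ)) : ℝ) < ((n - 2 : ℕ) : ℝ) := by
      exact_mod_cast h1
    rw [Nat.cast_mul, Nat.cast_sub (by omega), Nat.cast_sub (by omega)] at h4
    exact_mod_cast h4
  have part2 : ∀ n : ℕ, k ≤ n → ¬ (k - 2) ∣ (n - 2) →
      (∃ S : Finset (ℝ × ℝ), S.card = n ∧ ¬ Collinear ℝ (S : Set (ℝ × ℝ)) ∧
        bigT k S / smallT k S < bigT k (twoLines n) / smallT k (twoLines n)) ∧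
      f k n < bigT k (twoLines n) / smallT k (twoLines n) := by
    intro n hn hdvd
    have h1 := hstrict n hn hdvd
    have h2 := hratio n hn
    have hnpos : (0:ℝ) < n := by exact_mod_cast (by omega : 0 < n)
    set δ := ((n : ℝ) - 2) / ((k : ℝ) - 2) - (((n - 2) / (k - 2) : ℕ) : ℝ) with hδ
    have hδpos : 0 < δ := by rw [hδ]; linarith
    obtain ⟨h3, S, h4, h5, h6⟩ := key n hn (δ / (2 * n)) (by positivity)
    have h7 : δ / (2 * n) * n = δ / 2 := by field_simp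
    rw [h7] at h3 h6
    refine ⟨⟨S, h4, h5, ?_⟩, ?_⟩ <;> linarith
  refine ⟨fun n hn => ⟨?_, hratio n hn⟩, part2, ?_⟩
  · have hnpos : (0:ℝ) < n := by exact_mod_cast (by omega : 0 < n)
    apply le_of_forall_pos_le_add
    intro δ hδ
    obtain ⟨h3, -⟩ := key n hn (δ / n) (by positivity)
    have h7 : δ / n * n = δ := by field_simp
    rwa [h7] at h3
  · rintro ⟨N, hN⟩
    -- `n = (k - 2) * (N + k) + 3`
    have hN' := hN ((k - 2) * (N + k) + 3) (by nlinarith [show 2 ≤ k - 2 by omega])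
    have h1 := (part2 ((k - 2) * (N + k) + 3) (by nlinarith [show 2 ≤ k - 2 by omega]) ?_).2
    · exact h1.ne hN'
    · have h2 : (k - 2) * (N + k) + 3 - 2 = (k - 2) * (N + k) + 1 := by omega
      rw [h2, Nat.dvd_add_right (Dvd.intro _ rfl), Nat.dvd_one]
      omega

end Pool.Agent.Results.MP_ee40c7_co.ClusteredLine
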